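import Pool.Agent.Run7.h987.RT.Iface

/-! # Assembly of the embedding theorem -/

set_option autoImplicit false
set_option maxHeartbeats 400000

open MeasureTheory Set SchwartzMap
open scoped FourierTransform SchwartzMap ContDiff Pointwise Topology ENNReal

noncomputable section

namespace Pool.Agent.Run7.h987.RT

open Pool.Agent.Run7.h987.BL

universe u

lemma volume_cub {k : ℕ} (q : Fin k → ℝ) {r : ℝ} (hr : 0 ≤ r) :
    volume (cub q r) = ENNReal.ofReal ((2 * r) ^ k) := by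
  have h1 := (PiLp.volume_preserving_toLp (Fin k)).measure_preimage
    (isCompact_cub q r).measurableSet.nullMeasurableSet
  rw [← h1]
  have h2 : (WithLp.toLp 2 : (Fin k → ℝ) → E k) ⁻¹' cub q r = Metric.closedBall q r := rfl
  rw [h2, Real.volume_pi_closedBall q hr]
  simp

/-- disjoint open slabs in a cube -/
lemma exists_slabs {k : ℕ} (hk : 0 < k) (p : Fin k → ℝ) {ρ : ℝ} (hρ : 0 < ρ) :
    ∃ V : ℕ → Set (E k), (∀ j, IsOpen (V j)) ∧ (∀ j, (V j).Nonempty) ∧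
      (∀ i j, i ≠ j → Disjoint (V i) (V j)) ∧ ∀ j, V j ⊆ cub p ρ := by
  set i0 : Fin k := ⟨0, hk⟩ with hi0
  refine ⟨fun j => {x : E k | dist (WithLp.ofLp x) p < ρ ∧ ρ / (j + 2) < x i0 - p i0 ∧
    x i0 - p i0 < ρ / (j + 1)}, fun j => ?_, fun j => ?_, fun i j hij => ?_, fun j x hx => ?_⟩
  · have c1 : Continuous fun x : E k => dist (WithLp.ofLp x) p :=
      (PiLp.continuous_ofLp 2 (fun _ : Fin k => ℝ)).dist continuous_const
    have c2 : Continuous fun x : E k => x i0 - p i0 :=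
      (EuclideanSpace.proj (𝕜 := ℝ) i0).continuous.sub continuous_const
    exact (isOpen_lt c1 continuous_const).inter
      ((isOpen_lt continuous_const c2).inter (isOpen_lt c2 continuous_const))
  · have hj : (0 : ℝ) ≤ j := Nat.cast_nonneg j
    have h12 : ρ / ((j : ℝ) + 2) < ρ / (j + 1) :=
      div_lt_div_of_pos_left hρ (by positivity) (by linarith)
    obtain ⟨c, hc1, hc2⟩ := exists_between h12
    have hcρ : c < ρ := by
      refine hc2.trans_le ?_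
      rw [div_le_iff₀ (by positivity)]
      nlinarith
    have hc0 : 0 < c := lt_trans (by positivity) hc1
    refine ⟨WithLp.toLp 2 fun i => p i + c, ?_, ?_, ?_⟩
    · rw [dist_pi_lt_iff hρ]
      intro i
      simp only [Real.dist_eq, add_sub_cancel_left]
      rw [abs_of_pos hc0]
      exact hcρ
    · simpa using hc1
    · simpa using hc2
  · rw [Set.disjoint_left]
    rintro x ⟨-, h1, h2⟩ ⟨-, h3, h4⟩
    rcases Nat.lt_or_gt_of_ne hij with h | h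
    · have h5 : (i : ℝ) + 1 ≤ j := by exact_mod_cast h
      have h6 : ρ / ((j : ℝ) + 1) ≤ ρ / (i + 2) :=
        div_le_div_of_nonneg_left hρ.le (by positivity) (by linarith)
      linarith
    · have h5 : (j : ℝ) + 1 ≤ i := by exact_mod_cast h
      have h6 : ρ / ((i : ℝ) + 1) ≤ ρ / (j + 2) :=
        div_le_div_of_nonneg_left hρ.le (by positivity) (by linarith)
      linarith
  · exact hx.1.le

theorem t_MAIN (hSt : P_STEP.{u}) (hBa : P_BAIRE.{u}) (hMd : P_MDIM.{u}) (hPa : P_PACK.{u})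
    (hIn : P_INFSUM.{u}) (hSu : P_SUM2.{u}) : P_MAIN.{u} := by
  intro k X _ _ _ hk hT hMk V hV
  obtain ⟨v1, hv1, hv1V⟩ := ENNReal.lt_iff_exists_nnreal_btwn.mp hV
  obtain ⟨v2, hv12, hv2V⟩ := ENNReal.lt_iff_exists_nnreal_btwn.mp hv1V
  have hv12' : (v1 : ℝ) < v2 := by exact_mod_cast hv12
  have hv10 : 0 < (v1 : ℝ) := by
    have : (0 : ℝ≥0∞) < v1 := (zero_le).trans_lt hv1
    exact_mod_cast this
  -- side of the main cube
  obtain ⟨r, hr, hrk⟩ : ∃ r : ℝ, 0 < r ∧ (2 * r) ^ k = v1 := by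
    refine ⟨(v1 : ℝ) ^ ((k : ℝ)⁻¹) / 2, by positivity, ?_⟩
    rw [mul_div_cancel₀ _ (two_ne_zero)]
    exact Real.rpow_inv_natCast_pow hv10.le hk.ne'
  -- side of the small cube
  obtain ⟨ρ, hρ, hρ1, hρk⟩ : ∃ ρ : ℝ, 0 < ρ ∧ ρ ≤ 1 ∧ (2 * ρ) ^ k ≤ v2 - v1 := by
    obtain ⟨d, hd⟩ : ∃ d : ℝ, d = min 1 ((v2 : ℝ) - v1) := ⟨_, rfl⟩
    have hd0 : 0 < d := by
      rw [hd]
      exact lt_min one_pos (by linarith)
    have hd1 : d ≤ 1 := by rw [hd]; exact min_le_left _ _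
    have hd2 : d ≤ v2 - v1 := by rw [hd]; exact min_le_right _ _
    refine ⟨d / 2, by positivity, by linarith, ?_⟩
    rw [mul_div_cancel₀ _ (two_ne_zero)]
    exact (pow_le_of_le_one hd0.le hd1 hk.ne').trans hd2
  obtain ⟨A, B, hA, hB, hAB, hmd⟩ := hMd k X r hk hr (by
    rw [hrk, ENNReal.ofReal_coe_nnreal]
    exact hv1)
  obtain ⟨R0, hstep⟩ := hSt k A B r hk hA hB hr hAB
  -- slabs
  set p : Fin k → ℝ := fun _ => r + 2 with hp
  obtain ⟨W, hWo, hWn, hWd, hWc⟩ := exists_slabs hk p hρ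
  have hpack : ∀ j : ℕ, ∃ (jj m : ℕ) (S : Set (E k)) (F : X → C(E k, ℂ)) (L : ℝ)
      (w : X → Zk k → Zk k → ℝ), 0 < jj ∧ WidimLE k X (1 / ((j : ℝ) + 1)) (A * jj) m ∧
      m + 1 ≤ (B * jj) ^ k ∧ IsCompact S ∧ S ⊆ W j ∧ Sig S 1 F ∧
      IsPack (A * jj) (B * jj) R0 L (1 / ((j : ℝ) + 1)) F w := by
    intro j
    have hε : (0 : ℝ) < 1 / ((j : ℝ) + 1) := by positivity
    obtain ⟨jj, m, hjj, hwd, hm⟩ := hmd _ hε
    obtain ⟨S, F, L, w, h1, h2, h3, h4⟩ := hPa k (A * jj) (B * jj) R0 (1 / ((j : ℝ) + 1)) hk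
      (by positivity) (by positivity) hε (W j) (hWo j) (hWn j) X hT hMk
    exact ⟨jj, m, S, F, L, w, hjj, hwd, hm, h1, h2, h3, h4⟩
  choose jj mm S F L w hjj hwd hmm hSc hSW hSig hPk using hpack
  obtain ⟨F0, hF0, hF0d⟩ := hIn k X (cub p ρ) W S F (isCompact_cub _ _) hWo hWd hWc hSc hSW hSig
  have hpk : ∀ ε : ℝ, 0 < ε → ∃ (j m : ℕ) (L ε' : ℝ) (w : X → Zk k → Zk k → ℝ), 0 < j ∧ 0 < ε' ∧
      ε' ≤ ε ∧ WidimLE k X ε' (A * j) m ∧ m + 1 ≤ (B * j) ^ k ∧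
      IsPack (A * j) (B * j) R0 L ε' F0 w := by
    intro ε hε
    obtain ⟨n, hn⟩ := exists_nat_one_div_lt hε
    refine ⟨jj n, mm n, L n, 1 / ((n : ℝ) + 1), w n, hjj n, by positivity, hn.le, hwd n, hmm n,
      (hPk n).wts, fun x y h => (hPk n).det x y (hF0d x y h n), fun x y h hb =>
      (hPk n).bad x y (hF0d x y h n) hb⟩
  obtain ⟨g, hg, hgi⟩ := hBa k X (cub 0 r) F0 hF0.cont fun f η ε hη hε hf =>
    hstep X F0 hT hpk f η ε hη hε hf
  have hdisj : Disjoint (cub p ρ) (cub (0 : Fin k → ℝ) r) := by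
    rw [Set.disjoint_left]
    intro x hx1 hx2
    have h1 : dist (x ⟨0, hk⟩) (p ⟨0, hk⟩) ≤ ρ := (dist_le_pi_dist (WithLp.ofLp x) p ⟨0, hk⟩).trans hx1
    have h2 : dist (x ⟨0, hk⟩) ((0 : Fin k → ℝ) ⟨0, hk⟩) ≤ r :=
      (dist_le_pi_dist (WithLp.ofLp x) (0 : Fin k → ℝ) ⟨0, hk⟩).trans hx2
    rw [Real.dist_eq, abs_le] at h1 h2
    simp only [hp, Pi.zero_apply] at h1 h2
    linarith [h1.1, h2.2]
  obtain ⟨H, hH, hHi⟩ := hSu k X (cub p ρ) (cub 0 r) 2 1 F0 g (isCompact_cub _ _)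
    (isCompact_cub _ _) hdisj hF0 hg
  refine ⟨cub p ρ ∪ cub 0 r, (isCompact_cub _ _).union (isCompact_cub _ _), ?_, H, hH, ?_⟩
  · refine (measure_union_le _ _).trans_lt ?_
    rw [volume_cub _ hρ.le, volume_cub _ hr.le, ← ENNReal.ofReal_add (by positivity) (by positivity)]
    refine lt_of_le_of_lt ?_ hv2V
    rw [← ENNReal.ofReal_coe_nnreal]
    exact ENNReal.ofReal_le_ofReal (by rw [hrk]; linarith)
  · intro x y hxy
    have := hHi x y hxy
    exact hgi x y this.1 this.2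

end Pool.Agent.Run7.h987.RT
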