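import Pool.Agent.Run7.h987.RT.Step
import Pool.Agent.Run7.h987.RT.Main
import Pool.Agent.Run7.h108.RT.D1
import Pool.Agent.Run7.h592.RT.MARKENC
import Pool.Agent.Run7.h592.RT.WTC
import Pool.Agent.Run7.h646.RT.CNT2
import Pool.Agent.Run7.h676.RT.MARKF
import Pool.Agent.Run7.h676.RT.BLK
import Pool.Agent.Run7.h697.RT.Baire
import Pool.Agent.Run7.h705.RT.INTERP
import Pool.Agent.Run7.h705.RT.SYN
import Pool.Agent.Run7.h763.RT.PACK
import Pool.Agent.Run7.h888.RT.FIX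
import Pool.Agent.Run7.h888.RT.SEPSUM
import Pool.Agent.Run7.h888.RT.KER
import Pool.Agent.Run7.h892.RT.Sum
import Pool.Agent.Run7.h921.RT.LEV
import Pool.Agent.Run7.h929.RT.GEN
import Pool.Agent.Run7.h937.RT.Geo
import Pool.Agent.Run7.h957.RT.COV
import Pool.Agent.Run7.h957.RT.MDIM
import Pool.Agent.Run7.h957.RT.THETA

/-! # The embedding theorem over small unions of cubes, all pieces put together -/

set_option autoImplicit false

namespace Pool.Agent.Run7.h987.RT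

universe u

theorem interp : P_INTERP.{u} :=
  _root_.Run7.h705.RT.t_INTERP h888.RT.t_KER (_root_.Run7.h705.RT.t_SYN h888.RT.t_SEPSUM) h888.RT.t_FIX

theorem d1 : P_D1 := h108.RT.t_D1 h937.RT.t_COVER h937.RT.t_SCALE h937.RT.t_WTB h937.RT.t_WTS

theorem lev1 : P_LEV1.{u} :=
  h921.RT.t_LEV1 h676.RT.t_MARKF _root_.Run7.h592.RT.t_MARKENC h937.RT.t_WTB h937.RT.t_WTS _root_.Run7.h592.RT.t_WTC d1

theorem lev2 : P_LEV2.{u} :=
  h921.RT.t_LEV2 h676.RT.t_MARKF _root_.Run7.h592.RT.t_MARKENC h937.RT.t_WTB h937.RT.t_WTS _root_.Run7.h592.RT.t_WTC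
    h937.RT.t_COVER (_root_.Run7.h646.RT.t_CNT2 h937.RT.t_SCALE h937.RT.t_WTB)

theorem pack : P_PACK.{u} :=
  h763.RT.t_PACK lev1 lev2 interp h929.RT.t_GEN h957.RT.t_THETA h892.RT.t_SUM2

theorem step : P_STEP.{u} := t_STEP interp (h676.RT.t_BLK h957.RT.t_COV h957.RT.t_GPV)

/-- the embedding theorem -/
theorem main : P_MAIN.{u} :=
  t_MAIN step _root_.Run7.h697.RT.t_BAIRE h957.RT.t_MDIM pack h892.RT.t_INFSUM h892.RT.t_SUM2

end Pool.Agent.Run7.h987.RT
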