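import Pool.Agent.Run7.h987.BL.Wf

/-!
# Embedding systems with the marker property over one cube: definitions

Notation of `Pool.Agent.Run7.h987.BL` (on main): `E k = EuclideanSpace ℝ (Fin k)`,
`vec n` = the integer vector `n` in `E k`, `SpecIn f S` = the Fourier transform of `f` (tempered
distribution) is supported in `S`, `BC f C` = continuous and bounded by `C`,
`cub p r` = closed cube with centre `p` and half side `r`.
-/

set_option autoImplicit false

open MeasureTheory Set SchwartzMap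
open scoped FourierTransform SchwartzMap ContDiff Pointwise Topology ENNReal

noncomputable section

namespace Pool.Agent.Run7.h987.RT

open Pool.Agent.Run7.h987.BL

universe u

abbrev Zk (k : ℕ) := Fin k → ℤ

variable {k : ℕ}

/-- marker property -/
def Marker (k : ℕ) (X : Type u) [TopologicalSpace X] [AddAction (Zk k) X] : Prop :=
  ∀ N : ℕ, 0 < N → ∃ U : Set X, IsOpen U ∧
    (∀ n : Zk k, n ≠ 0 → (∀ i, |n i| < (N : ℤ)) → U ∩ (fun x => n +ᵥ x) '' U = ∅) ∧
    (⋃ n : Zk k, (fun x => n +ᵥ x) '' U) = Set.univ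

/-- an equivariant continuous family of functions with spectrum in `S`, bounded by `B` -/
structure Sig {X : Type u} [TopologicalSpace X] [AddAction (Zk k) X] (S : Set (E k)) (B : ℝ)
    (F : X → C(E k, ℂ)) : Prop where
  cont : Continuous F
  bdd : ∀ x t, ‖F x t‖ ≤ B
  spec : ∀ x, SpecIn (F x) S
  equi : ∀ (q : Zk k) (x : X) (t : E k), F (q +ᵥ x) t = F x (t + vec q)

/-- the lattice point `z` (mesh `κ`) of the tile with centre `n` -/
def pos (κ : ℝ) (n z : Zk k) : E k := vec n + κ • vec z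

/-- weights of the lattice points `pos κ n z`: continuous in `x`, equivariant, with local support,
and active points of different tiles are at least `R` apart -/
structure Wts {X : Type u} [TopologicalSpace X] [AddAction (Zk k) X] (κ R L : ℝ)
    (ρ : X → Zk k → Zk k → ℝ) : Prop where
  cont : ∀ n z, Continuous fun x => ρ x n z
  nonneg : ∀ x n z, 0 ≤ ρ x n z
  le_one : ∀ x n z, ρ x n z ≤ 1
  loc : ∀ x n z, 0 < ρ x n z → ‖κ • (vec z : E k)‖ ≤ L
  sep : ∀ x n z n' z', n ≠ n' → 0 < ρ x n z → 0 < ρ x n' z' →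
    R ≤ ‖pos κ n z - pos κ n' z'‖
  equi : ∀ (q : Zk k) x n z, ρ (q +ᵥ x) n z = ρ x (n + q) z

/-- coefficient families: continuous in `x`, equivariant, bounded by `B` -/
structure Coef {X : Type u} [TopologicalSpace X] [AddAction (Zk k) X] (B : ℝ)
    (D : X → Zk k → Zk k → ℂ) : Prop where
  cont : ∀ n z, Continuous fun x => D x n z
  bdd : ∀ x n z, ‖D x n z‖ ≤ B
  equi : ∀ (q : Zk k) x n z, D (q +ᵥ x) n z = D x (n + q) z

/-! ### Geometry of marker configurations -/

/-- height of the site with marker value `α ∈ (0,1]` -/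
def ht (α : ℝ) : ℝ := α⁻¹ - 1

/-- signed distance (in the slice at height `-H` of `ℝ^{k+1}`) of `t` to the hyperplane
equidistant from the sites `(n, ht (a n))` and `(m, ht (a m))`, positive on the side of `n` -/
def marg (a : Zk k → ℝ) (H : ℝ) (n m : Zk k) (t : E k) : ℝ :=
  (‖t - vec m‖ ^ 2 + (ht (a m) + H) ^ 2 - (‖t - vec n‖ ^ 2 + (ht (a n) + H) ^ 2)) /
    (2 * ‖(vec m - vec n : E k)‖)

/-- marker configurations: values in `[0,1]`, active sites `N`-separated, sites of value `1`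
`L`-dense -/
structure Cfg (N L : ℝ) (a : Zk k → ℝ) : Prop where
  nonneg : ∀ n, 0 ≤ a n
  le_one : ∀ n, a n ≤ 1
  sep : ∀ n m, n ≠ m → 0 < a n → 0 < a m → N ≤ ‖(vec n - vec m : E k)‖
  cov : ∀ t : E k, ∃ n, a n = 1 ∧ ‖vec n - t‖ ≤ L

/-- the other integer points of the box of radius `Rb` about `n` -/
def nb (Rb : ℕ) (n : Zk k) : Finset (Zk k) :=
  (Finset.Icc (fun i => n i - (Rb : ℤ)) (fun i => n i + (Rb : ℤ))).erase n

def clamp (y : ℝ) : ℝ := max 0 (min 1 y)

open Classical in
/-- weight of the point `vec n + v` in the tile `n` at height `H` with threshold `θ`: it is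
positive if all margins are `> θ` and `1` if all are `≥ θ + 1` -/
def wgt (a : Zk k → ℝ) (Rb : ℕ) (Λ H θ : ℝ) (n : Zk k) (v : E k) : ℝ :=
  if a n = 0 ∨ Λ < ‖v‖ then 0 else
    ∏ m ∈ nb Rb n, if a m = 0 then 1 else clamp (marg a H n m (vec n + v) - θ)

/-- the integer point `q` lies in the block `n + N b + [0,N)^k` -/
def inBlk (N : ℕ) (n b q : Zk k) : Prop :=
  ∀ i, 0 ≤ q i - n i - N * b i ∧ q i - n i - N * b i < N

/-- block of the lattice index `z` -/
def blkOf (M : ℕ) (z : Zk k) : Zk k := fun i => z i / (M : ℤ)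

/-- the integer box `u + [0,Q)^k` -/
def ibox (u : Zk k) (Q : ℕ) : Finset (Zk k) :=
  Finset.Icc u (fun i => u i + (Q : ℤ) - 1)

/-! ### Mean dimension (same definitions as in the hand-in `SpectralTransfer`) -/

def dN (k : ℕ) {X : Type u} [MetricSpace X] [AddAction (Zk k) X] (N : ℕ) (x y : X) : ℝ :=
  ⨆ n : Fin k → Fin N, dist ((fun i => ((n i : ℕ) : ℤ)) +ᵥ x) ((fun i => ((n i : ℕ) : ℤ)) +ᵥ y)

def WidimLE (k : ℕ) (X : Type u) [MetricSpace X] [AddAction (Zk k) X] (ε : ℝ) (N r : ℕ) :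
    Prop :=
  ∃ (l : ℕ) (P : Geometry.SimplicialComplex ℝ (E l)) (g : X → E l), P.faces.Finite ∧
    (∀ s ∈ P.faces, s.card ≤ r + 1) ∧ Continuous g ∧ (∀ x, g x ∈ P.space) ∧
    ∀ x y, g x = g y → dN k N x y < ε

def mdim (k : ℕ) (X : Type u) [MetricSpace X] [AddAction (Zk k) X] : ℝ≥0∞ :=
  ⨆ ε : ℝ, ⨆ _ : 0 < ε, Filter.limsup
    (fun N : ℕ => (⨅ r : ℕ, ⨅ _ : WidimLE k X ε N r, (r : ℝ≥0∞)) / (N : ℝ≥0∞) ^ k) Filter.atTop

/-- What the marker/export signal `F0` provides at one scale: block weights `w x n b` (blocks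
`n + N b + [0,N)^k` of the tile `n`), determined by `F0 x`, such that `F0` separates (up to `ε`)
the points whose origin lies in no block of weight `1`. -/
structure IsPack {X : Type u} [MetricSpace X] [AddAction (Zk k) X] (N M : ℕ) (R L ε : ℝ)
    (F0 : X → C(E k, ℂ)) (w : X → Zk k → Zk k → ℝ) : Prop where
  wts : Wts ((N : ℝ) / M) R L fun x n z => w x n (blkOf M z)
  det : ∀ x y, F0 x = F0 y → w x = w y
  bad : ∀ x y, F0 x = F0 y → (∀ n b, inBlk N n b 0 → w x n b < 1) → dist x y < ε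

end Pool.Agent.Run7.h987.RT
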