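import Pool.Agent.Run7.h987.RT.Defs

/-!
# Embedding over one cube (MP_fc1499_an): the pieces

Goal (`P_MAIN`): a compact metric `ℤ^k`-system with the marker property and `mdim < V` embeds in
the shift on `B_1(K)` for some compact `K` with `|K| < V`.  With the landed transfer theorem this
is the full answer to MP_fc1499_an.

Every piece is a closed Prop; theorem `t_XXX : P_XXX` (pieces that may use other pieces take them
as hypotheses, e.g. `theorem t_D1 (h1 : P_COVER) (h2 : P_SCALE) ... : P_D1`; for a piece with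
universe parameter write `P_XXX.{u}`).

Conventions: norms on `E k` are Euclidean; `‖v‖ ≤ c k` if all `|v i| ≤ c`; `|v i| ≤ ‖v‖`.
-/

set_option autoImplicit false

open MeasureTheory Set SchwartzMap
open scoped FourierTransform SchwartzMap ContDiff Pointwise Topology ENNReal

noncomputable section

namespace Pool.Agent.Run7.h987.RT

open Pool.Agent.Run7.h987.BL

universe u

/-! ## Analysis -/

/-- **KER** (independent, ~120 lines). Proof: choose `τ > 0` with `1/(2κ) + τ ≤ r`; `b` a smooth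
bump, support in the ball of radius `τ`, `∫ b = 1`; `I = {y : |y i| ≤ 1/(2κ)}`, `|I| = κ^{-k}`.
`φ(ξ) = κ^k ∫_I b(ξ - p - y) dy` (convolution of `b` with `κ^k 1_{p+I}`: smooth, support in
`cub p r`), `ψ(t) = ∫ φ(ξ) e^{2πi⟨ξ,t⟩} dξ` (inverse Fourier transform of the Schwartz function `φ`)
`= e^{2πi⟨p,t⟩} b̂(-t) κ^k ∏_i ∫_{-1/(2κ)}^{1/(2κ)} e^{2πi y t_i} dy` (Fubini).  At `t = κ z` the
factor with `z i ≠ 0` is `0`; at `0` the value is `1`.  `SpecIn`: `∫ ψ 𝓕u = ∫ φ u = 0`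
(self-adjointness; `SchwartzMap`/`BL.Spec`, `BL.Win` have similar computations). -/
def P_KER : Prop := ∀ (k : ℕ) (p : Fin k → ℝ) (r κ : ℝ), 0 < k → 0 < r → 0 < κ →
  1 / κ < 2 * r → ∃ ψ : 𝓢(E k, ℂ), ψ 0 = 1 ∧
    (∀ z : Zk k, z ≠ 0 → ψ (κ • vec z) = 0) ∧ SpecIn (fun t => ψ t) (cub p r)

/-- **SEPSUM** (independent, ~100 lines). Proof: `h = κ/(k+1)`, so a cube of side `h` contains at
most one `p i`: `c(i) = ⌊p i / h⌋` is injective.  Apply `BL.psi_le` to the Schwartz function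
`x ↦ ψ (h x)`, `R = 1`, at the point `t/h - frac(p i/h)`, `n = ⌊t/h⌋`, `m = c(i)`:
`‖ψ(t - p i)‖ ≤ C' ∏_l wt (n l - c(i) l)`.  Sum over the injective `c`: `≤ C' ∑_m ∏ wt(m)`
(`BL.tsum_wts_sub`, `BL.summable_wts`).  Second part: `‖t - p i‖ ≥ R` forces
`‖vec (n - c(i))‖ ≥ R/h - 2(k+1)`, and the tail of the convergent series is small. -/
def P_SEPSUM : Prop := ∀ (k : ℕ) (ψ : 𝓢(E k, ℂ)) (κ : ℝ), 0 < κ →
  (∃ C : ℝ, 0 ≤ C ∧ ∀ (ι : Type) (p : ι → E k), (∀ i j, i ≠ j → κ ≤ ‖p i - p j‖) →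
    ∀ (t : E k) (s : Finset ι), ∑ i ∈ s, ‖ψ (t - p i)‖ ≤ C) ∧
  ∀ ε : ℝ, 0 < ε → ∃ R : ℝ, 0 ≤ R ∧ ∀ (ι : Type) (p : ι → E k),
    (∀ i j, i ≠ j → κ ≤ ‖p i - p j‖) → ∀ (t : E k) (s : Finset ι),
      (∀ i ∈ s, R ≤ ‖t - p i‖) → ∑ i ∈ s, ‖ψ (t - p i)‖ ≤ ε

/-- **SYN** (uses `P_SEPSUM`, ~150 lines). `F x t = ∑_{n,z} ρ x n z · D x n z · ψ(t - pos κ n z)`.
Proof: for fixed `x` the active indices `A_x = {(n,z) : 0 < ρ x n z}` have `κ`-separated positions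
(same `n`: `‖κ vec (z - z')‖ ≥ κ`; different `n`: `≥ R ≥ κ`), so by SEPSUM (with
`ι = {i // i ∈ A_x}`) the series converges absolutely, `‖F x t‖ ≤ C B`.  Joint continuity in `(x,t)`
near `(x0,t0)`: the terms with `‖t0 - pos κ n z‖ ≥ R'` contribute `≤ ε` for all `x` and all `t` with
`‖t - t0‖ ≤ 1` (SEPSUM second part), the others form a fixed finite set of indices (`‖κ vec z‖ ≤ L`
and `‖vec n - t0‖ ≤ R' + L`; the other terms vanish).  Curry
(`ContinuousMap.curry`/`continuous_of_continuous_uncurry`) to get `X → C(E k, ℂ)` continuous.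
`SpecIn`: translate of `ψ` has spectrum in `S` (`∫ ψ(t-p) 𝓕u(t) dt = ∫ ψ · 𝓕(u·character)`, the
character does not change the support), exchange sum and integral (dominated by `C B |𝓕 u|`, or
`integral_tsum`/`hasSum_integral_of_dominated_convergence`).  Equivariance: reindex `n ↦ n + q`. -/
def P_SYN : Prop := ∀ (k : ℕ) (ψ : 𝓢(E k, ℂ)) (κ : ℝ) (S : Set (E k)), 0 < κ →
  SpecIn (fun t => ψ t) S → ∃ C : ℝ, 0 ≤ C ∧
  ∀ (X : Type u) [TopologicalSpace X] [AddAction (Zk k) X] (R L B : ℝ)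
    (ρ : X → Zk k → Zk k → ℝ) (D : X → Zk k → Zk k → ℂ), κ ≤ R → 0 ≤ B → Wts κ R L ρ →
    Coef B D → ∃ F : X → C(E k, ℂ), Sig S (C * B) F ∧
      ∀ x t, HasSum (fun i : Zk k × Zk k =>
        (ρ x i.1 i.2 : ℂ) * D x i.1 i.2 * ψ (t - pos κ i.1 i.2)) (F x t)

/-- **FIX** (uses `P_SEPSUM`, ~150 lines). Proof: `R0 ≥ κ` from SEPSUM with `ε = 1/2`.  Solve
`D x n z = ρ x n z * (u x n z - ∑_{i.1 ≠ n} ρ x i · D x i · ψ(pos n z - pos i))` by Banach's fixed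
point theorem in the bounded continuous functions on `(Zk × Zk) × X` (discrete first factor), or by
iteration: if `ρ x n z > 0`, all active `i` with `i.1 ≠ n` are at distance `≥ R ≥ R0` from
`pos n z`, so the sum is `≤ (1/2) sup |D|`; the right side is continuous in `x` because the sum
converges uniformly in `x` (SEPSUM: far terms small, near terms finitely many; where `ρ x n z` is
small the factor controls).  The map is a contraction with factor `1/2`; the fixed point is bounded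
by `2B`; equivariance by uniqueness (or every iterate is equivariant).  Where `ρ x n z = 1` the
equation is the claimed one.  (Here `tsum` over all `i` with the terms `i.1 = n` set to `0`;
summability: active positions are `κ`-separated, as in SYN.) -/
def P_FIX : Prop := ∀ (k : ℕ) (ψ : 𝓢(E k, ℂ)) (κ : ℝ), 0 < κ → ∃ R0 : ℝ, κ ≤ R0 ∧
  ∀ (X : Type u) [TopologicalSpace X] [CompactSpace X] [AddAction (Zk k) X] (R L B : ℝ)
    (ρ : X → Zk k → Zk k → ℝ) (u : X → Zk k → Zk k → ℂ), R0 ≤ R → 0 ≤ B → Wts κ R L ρ →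
    Coef B u → ∃ D : X → Zk k → Zk k → ℂ, Coef (2 * B) D ∧ ∀ x n z, ρ x n z = 1 →
      D x n z + ∑' i : Zk k × Zk k, (if i.1 = n then 0 else
        (ρ x i.1 i.2 : ℂ) * D x i.1 i.2 * ψ (pos κ n z - pos κ i.1 i.2)) = u x n z

/-- **INTERP** (uses `P_KER`, `P_SYN`, `P_FIX`, ~60 lines). Interpolation of prescribed values at the
points of weight `1`. Proof: `ψ` from KER, `R0` from FIX, `D` from FIX, `F` from SYN (`C = 2 C_SYN`).
If `ρ x n z = 1`: `F x (pos n z) = ∑_i ρ_i D_i ψ(pos n z - pos i)`; the terms with `i.1 = n` are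
`ρ_{n,z'} D_{n,z'} ψ(κ vec (z - z'))`, which vanish except `z' = z`, giving `D x n z`; the rest is
the sum in FIX; total `u x n z`. -/
def P_INTERP : Prop := ∀ (k : ℕ) (p : Fin k → ℝ) (r κ : ℝ), 0 < k → 0 < r → 0 < κ →
  1 / κ < 2 * r → ∃ R0 C : ℝ, 0 ≤ C ∧
  ∀ (X : Type u) [TopologicalSpace X] [CompactSpace X] [AddAction (Zk k) X] (R L B : ℝ)
    (ρ : X → Zk k → Zk k → ℝ) (u : X → Zk k → Zk k → ℂ), R0 ≤ R → 0 ≤ B → Wts κ R L ρ →
    Coef B u → ∃ F : X → C(E k, ℂ), Sig (cub p r) (C * B) F ∧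
      ∀ x n z, ρ x n z = 1 → F x (pos κ n z) = u x n z

/-- **SUM2** (independent, ~60 lines). Proof: `F = (F1 + F2) / (B1 + B2 + 1)`; if `F x = F y` then
`e1 + e2 = 0`, `e_i = F_i x - F_i y`, spectra in the disjoint compact sets `S1`, `S2`, so
`e1 = e2 = 0` by `BL.eq_zero_of_sum` (index type `Bool` or `Fin 2`). `0 ≤ B1, B2` needs `X`
nonempty; if `X` is empty everything is trivial. -/
def P_SUM2 : Prop := ∀ (k : ℕ) (X : Type u) [TopologicalSpace X] [AddAction (Zk k) X]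
  (S1 S2 : Set (E k)) (B1 B2 : ℝ) (F1 F2 : X → C(E k, ℂ)), IsCompact S1 → IsCompact S2 →
  Disjoint S1 S2 → Sig S1 B1 F1 → Sig S2 B2 F2 → ∃ F : X → C(E k, ℂ), Sig (S1 ∪ S2) 1 F ∧
    ∀ x y, F x = F y → F1 x = F1 y ∧ F2 x = F2 y

/-- **INFSUM** (independent, ~120 lines). Proof: `F = ∑_j 2^{-j} G_j` (uniformly convergent: jointly
continuous in `(x,t)`, curry).  `SpecIn (F x) K`: exchange sum and integral.  If `F x = F y` and `j`
is given, put `e_i = G_i x - G_i y`, `T = closure (⋃_{i ≠ j} V i)`, compact (contained in `K`), and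
disjoint from the open set `V j`, hence from `S j`.  `2^{-j} e_j + ∑_{i≠j} 2^{-i} e_i = 0` with
spectra in `S j` and `T`: both vanish by `BL.eq_zero_of_sum`. -/
def P_INFSUM : Prop := ∀ (k : ℕ) (X : Type u) [TopologicalSpace X] [AddAction (Zk k) X]
  (K : Set (E k)) (V S : ℕ → Set (E k)) (G : ℕ → X → C(E k, ℂ)), IsCompact K →
  (∀ j, IsOpen (V j)) → (∀ i j, i ≠ j → Disjoint (V i) (V j)) → (∀ j, V j ⊆ K) →
  (∀ j, IsCompact (S j)) → (∀ j, S j ⊆ V j) → (∀ j, Sig (S j) 1 (G j)) →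
  ∃ F : X → C(E k, ℂ), Sig K 2 F ∧ ∀ x y, F x = F y → ∀ j, G j x = G j y

/-- **MARKENC** (independent, ~80 lines). Encode a marker function with spectrum in `U`.
Proof: as in the landed `BL.Core`: choose a `ContDiffBump f` and a shift `α` so small that
`ker f α` has spectrum in a compact `S ⊆ U` (`BL.specIn_car`); `N0 = 2R+1`-like from
`BL.exists_params`; `F x t = c · car f α (n ↦ h (n +ᵥ x)) t` with `c = 1/(C+1)`, `C` from
`BL.car_bound`.  Continuity: `BL.car_continuous`, `car_cont`; equivariance: `BL.car_shift`;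
`F x = F y`: the difference of the two configurations satisfies the hypothesis of
`exists_params` by `BL.sep_diff` (separation: `‖vec n - vec m‖ ≥ N` forces
`¬ ∀ i, |n i - m i| < 2R` as soon as `N ≥ 2R k + 1`). -/
def P_MARKENC : Prop := ∀ (k : ℕ), 0 < k → ∀ U : Set (E k), IsOpen U → U.Nonempty →
  ∃ N0 : ℝ, 0 < N0 ∧ ∀ (X : Type u) [MetricSpace X] [CompactSpace X] [AddAction (Zk k) X]
    (N L : ℝ) (h : X → ℝ), (∀ n : Zk k, Continuous fun x : X => n +ᵥ x) → N0 ≤ N →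
    Continuous h → (∀ x : X, Cfg N L fun n : Zk k => h (n +ᵥ x)) →
    ∃ (S : Set (E k)) (F : X → C(E k, ℂ)), IsCompact S ∧ S ⊆ U ∧ Sig S 1 F ∧
      ∀ x y, F x = F y → ∀ n : Zk k, h (n +ᵥ x) = h (n +ᵥ y)

/-- **MARKF** (independent, ~90 lines). Marker functions. Proof: `U` from the marker property with
the integer `N`; `h0` from `BL.exists_marker_fun` (positive exactly on `U`).  The open sets
`{x : h0 (n +ᵥ x) > 1/(i+1)}`, `n ∈ ℤ^k`, `i ∈ ℕ`, cover `X`; by compactness there are `c > 0` and a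
finite set `J ⊆ ℤ^k` such that every `x` has `n ∈ J` with `h0 (n +ᵥ x) ≥ c`.
`h x = min 1 (h0 x / c)`.  Given `t`, apply this to `q +ᵥ x`, `q = ⌊t⌋`: `n + q` has value `1` and
`‖vec (n+q) - t‖ ≤ max_J ‖vec n‖ + k =: L`.  Separation: if `h(n +ᵥ x), h(m +ᵥ x) > 0`, `n ≠ m`
then not all `|n i - m i| < N` (`BL.marker_sparse`), so `‖vec n - vec m‖ ≥ N`. -/
def P_MARKF : Prop := ∀ (k : ℕ) (X : Type u) [MetricSpace X] [CompactSpace X]
  [AddAction (Zk k) X], 0 < k → (∀ n : Zk k, Continuous fun x : X => n +ᵥ x) → Marker k X →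
  ∀ N : ℕ, 0 < N → ∃ (L : ℝ) (h : X → ℝ), 0 ≤ L ∧ Continuous h ∧
    ∀ x : X, Cfg N L fun n : Zk k => h (n +ᵥ x)

/-! ## Geometry of marker configurations -/

/-- **WTB** (independent, ~80 lines). Basic properties of the weights. Products of numbers in
`[0,1]`; positivity of the product iff of all factors; `clamp y > 0` iff `y > 0`, `clamp y = 1` if
`y ≥ 1`; shift invariance by reindexing the product (`m ↦ m + q`), `marg` depends on differences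
only. -/
def P_WTB : Prop := ∀ (k : ℕ) (a : Zk k → ℝ) (Rb : ℕ) (Λ H θ : ℝ) (n : Zk k) (v : E k),
  (0 ≤ wgt a Rb Λ H θ n v ∧ wgt a Rb Λ H θ n v ≤ 1) ∧
  (0 < wgt a Rb Λ H θ n v → a n ≠ 0 ∧ ‖v‖ ≤ Λ ∧
    ∀ m ∈ nb Rb n, a m ≠ 0 → θ < marg a H n m (vec n + v)) ∧
  (a n ≠ 0 → ‖v‖ ≤ Λ → (∀ m ∈ nb Rb n, a m ≠ 0 → θ + 1 ≤ marg a H n m (vec n + v)) →
    wgt a Rb Λ H θ n v = 1) ∧
  ∀ q : Zk k, wgt (fun j => a (j + q)) Rb Λ H θ n v = wgt a Rb Λ H θ (n + q) v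

/-- **WTS** (may use `P_WTB`, ~60 lines). Active points of different tiles are `2θ` apart. Proof:
suppose the distance is `< 2θ`; then `‖vec n - vec n'‖ < 2Λ + 2θ ≤ Rb`, so `n' ∈ nb Rb n` and
`n ∈ nb Rb n'`; with `g(y) = marg a H n n' y = - marg a H n' n y` (affine in `y`, 1-Lipschitz) we
have `g(vec n + v) > θ` and `g(vec n' + v') < -θ`, so the distance is `> 2θ`. -/
def P_WTS : Prop := ∀ (k : ℕ) (a : Zk k → ℝ) (Rb : ℕ) (Λ H θ : ℝ) (n n' : Zk k) (v v' : E k),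
  0 ≤ θ → 2 * Λ + 2 * θ ≤ Rb → n ≠ n' → 0 < wgt a Rb Λ H θ n v → 0 < wgt a Rb Λ H θ n' v' →
  2 * θ ≤ ‖(vec n + v) - (vec n' + v')‖

/-- **COVER** (independent, ~80 lines). The cells cover. Proof: `D n = ‖t - vec n‖² + (ht (a n)+H)²`.
Some `n0` has `a n0 = 1`, `‖vec n0 - t‖ ≤ L`, so `D n0 ≤ L² + H²`.  The set of `n` with `0 < a n`
and `D n ≤ L² + H²` is finite (integer points in a ball) and nonempty; take the minimum `n` of `D`
on it.  For `m ≠ n`, `0 < a m`: `D m ≥ D n`, so `marg ≥ 0`.  `ht ≥ 0`, so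
`‖t - vec n‖² ≤ L² + H² - (ht + H)² ≤ L²`. -/
def P_COVER : Prop := ∀ (k : ℕ) (N L H : ℝ) (a : Zk k → ℝ), 0 < N → 0 ≤ L → 0 < H →
  Cfg N L a → ∀ t : E k, ∃ n, 0 < a n ∧ ‖t - vec n‖ ≤ L ∧
    ∀ m, m ≠ n → 0 < a m → 0 ≤ marg a H n m t

/-- **SCALE** (independent, ~120 lines). Proof: (i) `ht (a n) ≤ H`: `m0` with `a m0 = 1`,
`‖vec m0 - t‖ ≤ L`; if `m0 = n` then `ht = 0`; else `‖vec m0 - vec n‖ ≤ 2L+2`, so `m0 ∈ nb Rb n`, and
`marg ≥ -1` says `‖t - vec n‖² + (ht+H)² ≤ L² + H² + 2(2L+2)`, so `2 ht H ≤ (L+2)²`,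
`ht ≤ (L+2)/2 ≤ H`.  (ii) `s' = (ht + sH)/(ht + H)`: `s ≤ s' < 1`,
`1 - s' = (1-s)H/(ht+H) ≥ (1-s)/2`.  (iii) Put `D_m(t,H) = ‖t - vec m‖² + (ht (a m) + H)²`,
`t' = vec n + s'(t - vec n)`; `ht_n + sH = s'(ht_n + H)` gives the identity
`D_m(t',sH) - D_n(t',sH) = (1-s')(‖vec m - vec n‖² + (ht_m - ht_n)²) + s'(D_m(t,H) - D_n(t,H))`
(the point `(t',-sH)` divides the segment from the site `(vec n, ht_n)` to `(t,-H)`), which is
`≥ (1-s')‖m-n‖² - 2‖m-n‖`; divide by `2‖m-n‖ ≥ 2N`: `marg ≥ (1-s')N/2 - 1 ≥ (1-s)N/4 - 1`.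
(iv) `marg` is affine in `t` with gradient of norm `1`: adding `v` costs at most `‖v‖`. -/
def P_SCALE : Prop := ∀ (k : ℕ) (N L H s : ℝ) (Rb : ℕ) (a : Zk k → ℝ), 0 < N → 0 ≤ L →
  L + 2 ≤ H → 0 < s → s < 1 → 2 * L + 3 ≤ Rb → Cfg N L a →
  ∀ (n : Zk k) (t : E k), 0 < a n → ‖t - vec n‖ ≤ L + 2 →
  (∀ m ∈ nb Rb n, 0 < a m → -1 ≤ marg a H n m t) →
  ∃ s' : ℝ, s' = (ht (a n) + s * H) / (ht (a n) + H) ∧ s ≤ s' ∧ s' < 1 ∧
    ∀ m ∈ nb Rb n, 0 < a m → ∀ v : E k,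
      (1 - s) * N / 4 - 1 - ‖v‖ ≤ marg a (s * H) n m (vec n + s' • (t - vec n) + v)

/-- **WTC** (independent, ~120 lines). Continuity of the weights in `x`. Proof: if `‖v‖ > Λ` the
weight is `0`.  At `x0` with `a x0 n > 0`: near `x0` the product formula holds, and each factor
`if a m = 0 then 1 else clamp (marg - θ)` is continuous at `x0`: clear if `a x0 m > 0`; if
`a x0 m = 0`, then as `x → x0` with `a x m ≠ 0`, `ht (a x m) → ∞`, `marg → +∞`, so the factor is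
eventually `1`.  At `x0` with `a x0 n = 0`: by `cov` at `t = vec n + v` there is `m0` with
`a x0 m0 = 1`, `‖vec m0 - vec n‖ ≤ L + Λ ≤ Rb`, `m0 ≠ n`, `m0 ∈ nb Rb n`; near `x0`,
`a x m0 ≥ 1/2` and, where `a x n ≠ 0`, `ht (a x n) → ∞`, so `marg (a x) H n m0 → -∞`, the factor of
`m0` is `0` and the weight is eventually `0`. -/
def P_WTC : Prop := ∀ (k : ℕ) (X : Type u) [TopologicalSpace X] (a : X → Zk k → ℝ) (N L : ℝ)
  (Rb : ℕ) (Λ H θ : ℝ), 0 < N → 0 ≤ H → (∀ x, Cfg N L (a x)) →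
  (∀ n, Continuous fun x => a x n) → L + Λ ≤ Rb →
  ∀ (n : Zk k) (v : E k), Continuous fun x => wgt (a x) Rb Λ H θ n v

/-- **D1** (uses `P_COVER`, `P_SCALE`, `P_WTB`, `P_WTS`, ~200 lines). Density of bad points.
`N0 = 4(θ + 2 + N1 k)/(1-s)`, `c = L + N1 + 1`; `A = {t : u i + c ≤ t i ≤ u i + Q - c}`, volume
`(Q - 2c)^k`.  For `n` with `0 < a n` let `A_n = {t ∈ A : ‖t - vec n‖ ≤ L, marg a H n m t ≥ 0 for all
m ∈ nb Rb n, 0 < a m}` (closed); by COVER `A ⊆ ⋃ A_n` over the finite set of `n` within `L` of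
`A`.  `T_n(t) = vec n + s'_n (t - vec n)`, `s'_n` from SCALE (it does not depend on `t`):
`vol (T_n A_n) = s'_n^k vol A_n ≥ s^k vol A_n`.  For `t' = T_n t`, `t ∈ A_n`, let
`b = ⌊(t' - n)/N1⌋`; the point `vec n + N1 vec b` differs from `t'` by a vector of norm `≤ N1 k`,
so its margins at height `sH` are `≥ (1-s)N/4 - 1 - N1 k ≥ θ + 1` and its weight is `1`
(`‖N1 vec b‖ ≤ L + N1 k ≤ Λ`); `‖t' - t‖ ≤ L`, so the integer points of the block `(n,b)` lie in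
`ibox u Q`.  So `T_n A_n` is contained in the union of the half open cubes of side `N1` of the set
`𝔊_n` of blocks `(n,b)` of weight `1` inside the box, and `vol (T_n A_n) ≤ #𝔊_n N1^k =` number of
integer points in these blocks.  Blocks of the same tile are disjoint; blocks of different tiles
too, since their base points are `≥ 2θ ≥ 2 N1 k` apart (WTS) while a common integer point would give
distance `≤ N1 k`.  Hence `#good ≥ ∑_n #𝔊_n N1^k ≥ s^k ∑ vol A_n ≥ s^k (Q-2c)^k` and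
`#bad ≤ Q^k - s^k (Q-2c)^k ≤ δ Q^k` for `Q ≥ Q0` (`1 - s^k < δ`). -/
def P_D1 : Prop := ∀ (k N1 : ℕ) (θ s δ : ℝ), 0 < k → 0 < N1 → (N1 : ℝ) * k ≤ θ → 0 < s →
  s < 1 → 1 - s ^ k < δ → ∃ N0 : ℝ, 0 < N0 ∧ ∀ N L : ℝ, N0 ≤ N → 0 ≤ L → ∃ Q0 : ℕ,
  ∀ (H Λ : ℝ) (Rb : ℕ) (a : Zk k → ℝ), Cfg N L a → L + 2 ≤ H → L + 2 + N1 * k ≤ Λ →
    2 * Λ + 2 * θ ≤ Rb → ∀ Q : ℕ, Q0 ≤ Q → ∀ u : Zk k, ∀ bad : Finset (Zk k),
    bad ⊆ ibox u Q → (∀ q ∈ bad, ∀ n b, inBlk N1 n b q →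
      wgt a Rb Λ (s * H) θ n ((N1 : ℝ) • vec b) < 1) →
    (bad.card : ℝ) ≤ δ * (Q : ℝ) ^ k

/-- **CNT2** (uses `P_SCALE`, `P_WTB`, ~200 lines). Counting at the export level.
`N0 = 8(θ + 2 + Q k)`.  Fix `m`, may assume `0 < a m`; `s = 1/2`, `s'` from SCALE (depends on `m`
only; if no `q` is counted nothing to prove).  Let `u` run over the finite set `𝒰` of
`⌊q/Q⌋ ∈ ℤ^k`, `q` counted on the left; for `u ∈ 𝒰` pick `q_u`.  If `κ z ∈ s'(Q u - m + [0,Q)^k)`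
coordinatewise then `vec m + κ vec z = vec m + s'(vec q_u - vec m) + v`, `‖v‖ ≤ Q k`, so its margins
at height `H/2` are `≥ N/8 - 1 - Q k ≥ θ + 1`, and `‖κ vec z‖ ≤ L + 2 + Q k ≤ Λ'`: weight `1`
(`WTB`).  Each coordinate interval has length `s'Q ≥ Q/2 ≥ 2κ`, so contains `≥ ⌊Q/(2κ)⌋ ≥ Q/(4κ)`
points of `κℤ`; different `u` give disjoint sets of `z`.  So the right side is
`≥ #𝒰 (Q/(4κ))^k`, and the left side is `≤ ∑_{u∈𝒰} D #(bad ∩ ibox (Q u) Q) ≤ #𝒰 (Q/(4κ))^k`.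
(The set on the right is finite: `‖κ vec z‖ ≤ Λ'`.) -/
def P_CNT2 : Prop := ∀ (k : ℕ) (κ θ : ℝ) (Q D : ℕ), 0 < k → 0 < κ → 4 * κ ≤ Q → 0 ≤ θ →
  ∃ N0 : ℝ, 0 < N0 ∧ ∀ (N L H Λ' : ℝ) (Rb : ℕ) (a : Zk k → ℝ) (bad : Set (Zk k)),
    N0 ≤ N → 0 ≤ L → Cfg N L a → L + 2 ≤ H → L + 2 + Q * k ≤ Λ' → 2 * L + 3 ≤ Rb →
    (∀ (u : Zk k) (s : Finset (Zk k)), s ⊆ ibox u Q → (∀ q ∈ s, q ∈ bad) →
      (D : ℝ) * s.card ≤ ((Q : ℝ) / (4 * κ)) ^ k) →
    ∀ m : Zk k, D * Set.ncard {j : Zk k | m + j ∈ bad ∧ 0 < wgt a Rb (L + 2) H (-1) m (vec j)} ≤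
      Set.ncard {z : Zk k | wgt a Rb Λ' (1 / 2 * H) θ m (κ • vec z) = 1}

/-- **LEV1** (uses `P_MARKF`, `P_MARKENC`, `P_WTB`, `P_WTS`, `P_WTC`, `P_D1`, ~120 lines).
Proof: `θ = max (R/2) (N1 k)` (and `≥ 0`), `s < 1` with `1 - s^k < δ`, `N` a natural number above
`N0` of D1 and `N0` of MARKENC for `U`; `L, h` from MARKF; `F` from MARKENC; `a x n = h (n +ᵥ x)`;
`H = L + 2`, `Λ = L + 2 + N1 k`, `Rb` large; `w x n b = wgt (a x) Rb Λ (s H) θ n (N1 • vec b)`.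
Continuity WTC; separation WTS; equivariance WTB (`a (q +ᵥ x) n = a x (n + q)`); bad points D1. -/
def P_LEV1 : Prop := ∀ (k N1 : ℕ) (R δ : ℝ), 0 < k → 0 < N1 → 0 < δ → ∀ U : Set (E k),
  IsOpen U → U.Nonempty → ∀ (X : Type u) [MetricSpace X] [CompactSpace X] [AddAction (Zk k) X],
  (∀ n : Zk k, Continuous fun x : X => n +ᵥ x) → Marker k X →
  ∃ (S : Set (E k)) (F : X → C(E k, ℂ)) (L : ℝ) (w : X → Zk k → Zk k → ℝ) (Q0 : ℕ),
    IsCompact S ∧ S ⊆ U ∧ Sig S 1 F ∧ (∀ x y, F x = F y → w x = w y) ∧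
    Wts (N1 : ℝ) R L w ∧ ∀ Q : ℕ, Q0 ≤ Q → ∀ (x : X) (u : Zk k) (bad : Finset (Zk k)),
      bad ⊆ ibox u Q → (∀ q ∈ bad, ∀ n b, inBlk N1 n b q → w x n b < 1) →
      (bad.card : ℝ) ≤ δ * (Q : ℝ) ^ k

/-- **LEV2** (uses `P_MARKF`, `P_MARKENC`, `P_WTB`, `P_WTS`, `P_WTC`, `P_COVER`, `P_CNT2`, ~120
lines). Proof: `θ = max (R/2) 0`, `N` above the `N0`s; `L', h` from MARKF, `F` from MARKENC,
`a x n = h (n +ᵥ x)`; `H = L' + 2`, `Λ' = L' + 2 + Q k`, `Rb` large, `L = Λ'`;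
`om x m j = wgt (a x) Rb (L'+2) H (-1) m (vec j)`,
`σ x m z = wgt (a x) Rb Λ' (H/2) θ m (κ • vec z)`.
Cover: COVER at `t = 0` gives `m` with margins `≥ 0 = -1 + 1` and `‖vec m‖ ≤ L'`, so
`om x m (-m) = 1` (WTB, `vec m + vec (-m) = 0`). Count: CNT2. -/
def P_LEV2 : Prop := ∀ (k : ℕ) (κ R : ℝ) (Q D : ℕ), 0 < k → 0 < κ → 4 * κ ≤ Q →
  ∀ U : Set (E k), IsOpen U → U.Nonempty →
  ∀ (X : Type u) [MetricSpace X] [CompactSpace X] [AddAction (Zk k) X],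
  (∀ n : Zk k, Continuous fun x : X => n +ᵥ x) → Marker k X →
  ∃ (S : Set (E k)) (F : X → C(E k, ℂ)) (L : ℝ) (om σ : X → Zk k → Zk k → ℝ),
    IsCompact S ∧ S ⊆ U ∧ Sig S 1 F ∧ (∀ x y, F x = F y → om x = om y ∧ σ x = σ y) ∧
    Wts κ R L σ ∧ (∀ m j, Continuous fun x => om x m j) ∧
    (∀ x m j, 0 ≤ om x m j ∧ om x m j ≤ 1) ∧
    (∀ x m j, 0 < om x m j → ‖(vec j : E k)‖ ≤ L) ∧
    (∀ (q : Zk k) x m j, om (q +ᵥ x) m j = om x (m + q) j) ∧
    (∀ x, ∃ m, om x m (-m) = 1) ∧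
    ∀ (x : X) (bad : Set (Zk k)), (∀ (u : Zk k) (s : Finset (Zk k)), s ⊆ ibox u Q →
      (∀ q ∈ s, q ∈ bad) → (D : ℝ) * s.card ≤ ((Q : ℝ) / (4 * κ)) ^ k) →
      ∀ m : Zk k, D * Set.ncard {j : Zk k | m + j ∈ bad ∧ 0 < om x m j} ≤
        Set.ncard {z : Zk k | σ x m z = 1}

/-- **GEN** (independent, ~50 lines). The Hilbert matrix. Proof: the polynomial
`P(x) = ∑_{j∈B} v j ∏_{l∈B, l≠j} (x + l + 1)` has degree `< #B` and vanishes at the `≥ #B` points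
`x = i ∈ A` (`P(i) = ∏_{l∈B}(i + l + 1) · ∑_j v j/(i+j+1)`), so `P = 0`
(`Polynomial.eq_zero_of_natDegree_lt_card_of_eval_eq_zero'`); at `x = -(j+1)` it gives
`v j ∏_{l≠j} (l - j) = 0`. -/
def P_GEN : Prop := ∀ (A B : Finset ℕ) (v : ℕ → ℝ), B.card ≤ A.card →
  (∀ i ∈ A, ∑ j ∈ B, v j / ((i : ℝ) + j + 1) = 0) → ∀ j ∈ B, v j = 0

/-- **THETA** (independent, ~40 lines). Proof: finite cover by balls `B(y_i, ε/2)`... with
`θ x i = min 1 (dist x y_i / ε')`: take `y_i` an `ε/4`-net, `θ x i = min 1 (dist x (y_i) / (2 ε))`;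
if `θ x = θ y` and `dist x y_i < ε/4` then `dist y y_i = dist x y_i`, so `dist x y < ε`. -/
def P_THETA : Prop := ∀ (X : Type u) [MetricSpace X] [CompactSpace X] (ε : ℝ), 0 < ε →
  ∃ (D : ℕ) (θ : X → Fin D → ℝ), (∀ i, Continuous fun x => θ x i) ∧
    (∀ x i, 0 ≤ θ x i ∧ θ x i ≤ 1) ∧ ∀ x y, θ x = θ y → dist x y < ε

/-- **PACK** (uses `P_LEV1`, `P_LEV2`, `P_INTERP`, `P_GEN`, `P_THETA`, `P_SUM2`, ~250 lines).
Proof. `D, θ` from THETA.  Split `U` into three pairwise disjoint nonempty open subsets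
`U1, U2, U3` (small balls; e.g. `exists_seq_infinite_isOpen_pairwise_disjoint` type lemmas or
explicit balls); `cub p r ⊆ U3`; `κ = 1/r`, so `1/κ < 2 r`; `R2, C` from INTERP for `(p, r, κ)`.
`δ = 1/((4κ)^k (D+1))`; LEV1 with `R + 2 N k`, `δ`, `U1` gives `F1, w, Q0, L1`;
`Q ≥ Q0, 4κ`; LEV2 with `κ, R2, Q, D, U2` gives `F2, om, σ, L2`.
`bad x = {q | ∀ n b, inBlk N n b q → w x n b < 1}`.  Its `Q`-boxes have `≤ δ Q^k` points, so
`D · # ≤ (Q/(4κ))^k`.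
`β x q = ∏_n (1 - w x n ⌊(q-n)/N⌋)` over `n` in a box around `q` of radius `≥ L1 + N` (for other `n`
the weight vanishes), continuous, in `[0,1]`, `β x q > 0` iff `q ∈ bad x`,
`β (p +ᵥ x) q = β x (q + p)`.
`J` = finite set of all `j` with `‖vec j‖ ≤ L2`; let `c1 : Zk k → ℕ`, `c2 : Zk k × Fin D → ℕ` be
injective (`Encodable.encode`).
`e x m z = ∑_{j∈J} ∑_{i<D} (c1 z + c2 (j,i) + 1)⁻¹ om x m j · β x (m+j) · θ ((m+j) +ᵥ x) i`, bounded by
`#J · D`, continuous, equivariant: `Coef`.  INTERP with weights `σ` and `u = e` gives `F3`,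
`Sig (cub p r)`, with `F3 x (pos κ m z) = e x m z` where `σ x m z = 1`.
`F` from SUM2 (twice).  If `F x = F y` then `w, om, σ, β` agree for `x` and `y`.  Suppose
`0 ∈ bad x`; `m` with `om x m (-m) = 1`.  For `z ∈ Z = {σ x m z = 1}`: `e x m z = e y m z`, i.e.
`∑_{(j,i)∈B} v_{j,i}/(c1 z + c2 (j,i) + 1) = 0` with
`v_{j,i} = om β (θ ((m+j)+ᵥx) i - θ ((m+j)+ᵥy) i)`, `B = {(j,i) : m + j ∈ bad x, 0 < om x m j}`,
`#B = D·#{j..} ≤ #Z` (LEV2).  GEN: `v = 0` on `B`; at `j = -m`: `θ x i = θ y i` for all `i`, so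
`dist x y < ε`.
`wts`: `Wts (N/M) R (L1 + N k)`: positions `pos (N/M) n z` and `pos N n (blkOf M z)` differ by at
most `N k`. -/
def P_PACK : Prop := ∀ (k N M : ℕ) (R ε : ℝ), 0 < k → 0 < N → 0 < M → 0 < ε →
  ∀ U : Set (E k), IsOpen U → U.Nonempty →
  ∀ (X : Type u) [MetricSpace X] [CompactSpace X] [AddAction (Zk k) X],
  (∀ n : Zk k, Continuous fun x : X => n +ᵥ x) → Marker k X →
  ∃ (S : Set (E k)) (F : X → C(E k, ℂ)) (L : ℝ) (w : X → Zk k → Zk k → ℝ),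
    IsCompact S ∧ S ⊆ U ∧ Sig S 1 F ∧ IsPack N M R L ε F w

/-! ## Dimension theory, blocks -/

/-- **COV** (independent, ~180 lines). Fine open covers of order `≤ r + 1`. Proof: each simplex with
`≤ r+1` vertices lies in an affine subspace of dimension `≤ r`, so `P.space` (compact) lies in a
finite union of affine subspaces of dimension `≤ r`.  Claim by induction on `r`: for every compact
`C` in a finite union of affine subspaces `W_i` of dimension `≤ r` and `δ > 0` there are finitely many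
open sets of diameter `< δ` covering `C`, coloured with `r+1` colours, sets of the same colour
pairwise disjoint (so every point is in at most `r+1` of them).  `r = 0`: finitely many points.
Step: choose a grid of hyperplanes `{x_c = g + h m}` (`m ∈ ℤ`, mesh `h` small, shift `g`) such that no
`W_i` is contained in a grid hyperplane (if `x_c` is constant on `W_i`, its value must avoid
`g + hℤ`: all but finitely many `g ∈ [0,h)`).  Then `W_i ∩ {x_c = g + h m}` is empty or an affine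
subspace of dimension `≤ r - 1`; finitely many meet `C`.  Induction gives open sets with `r` colours
covering the points of `C` on the grid hyperplanes; the rest of `C` is covered by finitely many open
grid cells (pairwise disjoint, diameter `< δ`): the last colour. -/
def P_COV : Prop := ∀ (l r : ℕ) (P : Geometry.SimplicialComplex ℝ (E l)), P.faces.Finite →
  (∀ s ∈ P.faces, s.card ≤ r + 1) → ∀ δ : ℝ, 0 < δ →
  ∃ (J : ℕ) (V : Fin J → Set (E l)), (∀ i, IsOpen (V i)) ∧ P.space ⊆ ⋃ i, V i ∧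
    (∀ i, ∀ x ∈ V i, ∀ y ∈ V i, dist x y < δ) ∧
    ∀ (x : E l) (s : Finset (Fin J)), (∀ i ∈ s, x ∈ V i) → s.card ≤ r + 1

/-- **GPV** (independent, ~80 lines). General position. Proof: choose `w 0, w 1, …` one after the
other: `w j` near `v j` outside the finite union of the spans of the subsets of
`{w i : i < j}` with `< D` elements; these are proper subspaces of `ℝ^D`, closed with empty interior,
so a finite union has empty interior.  A subset with `≤ D` elements is then linearly independent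
(add its elements in increasing order, `LinearIndependent.insert`/`linearIndependent_fin_cons`). -/
def P_GPV : Prop := ∀ (D J : ℕ) (v : Fin J → Fin D → ℝ) (ε : ℝ), 0 < ε →
  ∃ w : Fin J → Fin D → ℝ, (∀ j, ‖w j - v j‖ < ε) ∧
    ∀ s : Finset (Fin J), s.card ≤ D → LinearIndependent ℝ fun i : s => w i

/-- **BLK** (uses `P_COV`, `P_GPV`, ~150 lines). Block maps in general position. Proof: `(l, P, φ)`
from `WidimLE`.  By compactness there is `δ > 0` with `‖φ x - φ y‖ < δ ⇒ dN x y < ε` (`dN` is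
continuous).  `V` from COV, `U_i = φ⁻¹ V_i`: open cover of `X` of order `≤ m+1`, `y, y' ∈ U_i ⇒
dN y y' < ε`.  `λ` a partition of unity, `λ_i y > 0 ⇒ y ∈ U_i` (`PartitionOfUnity`, or
`infDist` to the complement, normalised).  `v_i = g (y_i)`, `y_i ∈ U_i` (drop empty `U_i` or take
`v_i = 0`), `w_i` within `η` of `v_i` in general position in `ℂ^ι ≅ ℝ^{2 #ι}` (GPV with
`D = 2 #ι`).  `G y = ∑ λ_i(y) w_i`: `‖G y c - g y c‖ ≤ ∑ λ_i (η + η)`.  If `G y = G y'` then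
`∑ (λ_i y - λ_i y') w_i = 0` with at most `2(m+1) ≤ 2 #ι` nonzero coefficients, so
`λ_i y = λ_i y'` for all `i`; some `λ_i y > 0`, so `y, y' ∈ U_i` and `dN y y' < ε`. -/
def P_BLK : Prop := ∀ (k : ℕ) (X : Type u) [MetricSpace X] [CompactSpace X]
  [AddAction (Zk k) X] (N m : ℕ) (ε η : ℝ) (ι : Type) [Fintype ι] (g : X → ι → ℂ),
  0 < k → 0 < N → (∀ n : Zk k, Continuous fun x : X => n +ᵥ x) → WidimLE k X ε N m →
  m + 1 ≤ Fintype.card ι → 0 < ε → 0 < η → Continuous g →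
  (∀ y y', dN k N y y' < ε → ∀ i, ‖g y i - g y' i‖ ≤ η) →
  ∃ G : X → ι → ℂ, Continuous G ∧ (∀ y i, ‖G y i - g y i‖ ≤ 2 * η) ∧
    ∀ y y', G y = G y' → dN k N y y' < ε

/-- **MDIM** (independent, ~100 lines). Proof: `mdim < (2r)^k`: choose reals `mdim ≤ v < v' < (2r)^k`
and a rational `B/A` with `v' < (B/A)^k < (2r)^k`, `A, B > 0`.  For `ε > 0` the limsup is `≤ v < v'`,
so for all large `N` the infimum over `{m : WidimLE ε N m}` is `< v' N^k`, hence some `m` with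
`WidimLE ε N m`, `m < v' N^k`.  Take `N = A j`, `j` large: `(B j)^k = (B/A)^k N^k ≥ v' N^k + 1`. -/
def P_MDIM : Prop := ∀ (k : ℕ) (X : Type u) [MetricSpace X] [CompactSpace X]
  [AddAction (Zk k) X] (r : ℝ), 0 < k → 0 < r → mdim k X < ENNReal.ofReal ((2 * r) ^ k) →
  ∃ A B : ℕ, 0 < A ∧ 0 < B ∧ (B : ℝ) < 2 * r * A ∧ ∀ ε : ℝ, 0 < ε →
    ∃ j m : ℕ, 0 < j ∧ WidimLE k X ε (A * j) m ∧ m + 1 ≤ (B * j) ^ k

/-- **BAIRE** (independent, ~180 lines). Proof: the set `𝓕` of bounded continuous functions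
`f : X × E k → ℂ` (sup metric, `BoundedContinuousFunction`) with `|f| ≤ 1`,
`f (q +ᵥ x, t) = f (x, t + vec q)` and `SpecIn (f (x,·)) S` for all `x` is closed, hence complete
(closedness of `SpecIn`: `∫ f_n 𝓕u → ∫ f 𝓕u` for uniform limits), nonempty (`0`).
`O_j = {f ∈ 𝓕 : ∀ x y, F0 x = F0 y → f(x,·) = f(y,·) → dist x y < 1/(j+1)}` is dense by hypothesis and
open: on the compact set `Z = {(x,y) : 1/(j+1) ≤ dist x y, F0 x = F0 y}` every point has `t` with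
`f(x,t) ≠ f(y,t)`; by compactness finitely many `t ∈ T` suffice and
`c = min_Z max_{t∈T} |f(x,t) - f(y,t)| > 0`; the ball of radius `c/3` about `f` is in `O_j`.
By Baire (`dense_iInter_of_isOpen_nat` on the complete subtype) some `f` is in all `O_j`; curry. -/
def P_BAIRE : Prop := ∀ (k : ℕ) (X : Type u) [MetricSpace X] [CompactSpace X]
  [AddAction (Zk k) X] (S : Set (E k)) (F0 : X → C(E k, ℂ)), Continuous F0 →
  (∀ (f : X → C(E k, ℂ)) (η ε : ℝ), 0 < η → 0 < ε → Sig S 1 f →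
    ∃ g : X → C(E k, ℂ), Sig S 1 g ∧ (∀ x t, ‖g x t - f x t‖ ≤ η) ∧
      ∀ x y, F0 x = F0 y → g x = g y → dist x y < ε) →
  ∃ g : X → C(E k, ℂ), Sig S 1 g ∧ ∀ x y, F0 x = F0 y → g x = g y → x = y

/-- **STEP** (uses `P_INTERP`, `P_BLK`, ~200 lines; leader). Density step. -/
def P_STEP : Prop := ∀ (k A B : ℕ) (r : ℝ), 0 < k → 0 < A → 0 < B → 0 < r →
  (B : ℝ) < 2 * r * A → ∃ R0 : ℝ,
  ∀ (X : Type u) [MetricSpace X] [CompactSpace X] [AddAction (Zk k) X] (F0 : X → C(E k, ℂ)),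
    (∀ n : Zk k, Continuous fun x : X => n +ᵥ x) →
    (∀ ε : ℝ, 0 < ε → ∃ (j m : ℕ) (L ε' : ℝ) (w : X → Zk k → Zk k → ℝ), 0 < j ∧ 0 < ε' ∧
      ε' ≤ ε ∧ WidimLE k X ε' (A * j) m ∧ m + 1 ≤ (B * j) ^ k ∧
      IsPack (A * j) (B * j) R0 L ε' F0 w) →
    ∀ (f : X → C(E k, ℂ)) (η ε : ℝ), 0 < η → 0 < ε → Sig (cub 0 r) 1 f →
      ∃ g : X → C(E k, ℂ), Sig (cub 0 r) 1 g ∧ (∀ x t, ‖g x t - f x t‖ ≤ η) ∧
        ∀ x y, F0 x = F0 y → g x = g y → dist x y < ε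

/-- **MAIN** (uses `P_STEP`, `P_BAIRE`, `P_MDIM`, `P_PACK`, `P_INFSUM`, `P_SUM2`; leader). -/
def P_MAIN : Prop := ∀ (k : ℕ) (X : Type u) [MetricSpace X] [CompactSpace X]
  [AddAction (Zk k) X], 0 < k → (∀ n : Zk k, Continuous fun x : X => n +ᵥ x) → Marker k X →
  ∀ V : ℝ≥0∞, mdim k X < V → ∃ K : Set (E k), IsCompact K ∧ volume K < V ∧
    ∃ F : X → C(E k, ℂ), Sig K 1 F ∧ Function.Injective F

end Pool.Agent.Run7.h987.RT
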