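import Pool.Agent.Run7.h987.RT.Iface

/-! # The density step -/

set_option autoImplicit false
set_option maxHeartbeats 400000

open MeasureTheory Set SchwartzMap
open scoped FourierTransform SchwartzMap ContDiff Pointwise Topology ENNReal

noncomputable section

namespace Pool.Agent.Run7.h987.RT

open Pool.Agent.Run7.h987.BL

universe u

lemma le_dN {k : ℕ} {X : Type u} [MetricSpace X] [AddAction (Zk k) X] (N : ℕ) (x y : X)
    (q : Zk k) (hq : ∀ i, 0 ≤ q i ∧ q i < N) : dist (q +ᵥ x) (q +ᵥ y) ≤ dN k N x y := by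
  have h1 : ∀ i, (q i).toNat < N := fun i => by
    have := hq i
    omega
  have h2 : q = fun i => (((⟨(q i).toNat, h1 i⟩ : Fin N) : ℕ) : ℤ) := by
    funext i
    have := hq i
    simp only
    omega
  have h3 : BddAbove (Set.range fun n : Fin k → Fin N =>
      dist ((fun i => ((n i : ℕ) : ℤ)) +ᵥ x) ((fun i => ((n i : ℕ) : ℤ)) +ᵥ y)) :=
    Set.Finite.bddAbove (Set.finite_range _)
  have h4 := le_ciSup h3 (fun i => (⟨(q i).toNat, h1 i⟩ : Fin N))
  simp only at h4
  rw [← h2] at h4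
  exact h4

/-- the remainder of `z` modulo `M` -/
def rem (M : ℕ) (hM : 0 < M) {k : ℕ} (z : Zk k) : Fin k → Fin M := fun i =>
  ⟨(z i % (M : ℤ)).toNat, by
    have h1 := Int.emod_lt_of_pos (z i) (by exact_mod_cast hM : (0 : ℤ) < M)
    have h2 := Int.emod_nonneg (z i) (by exact_mod_cast hM.ne' : (M : ℤ) ≠ 0)
    omega⟩

/-- an element of `[0,M)^k` as an integer vector -/
def cst {M k : ℕ} (c : Fin k → Fin M) : Zk k := fun i => ((c i : ℕ) : ℤ)

lemma rem_add {M k : ℕ} (hM : 0 < M) (b : Zk k) (c : Fin k → Fin M) :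
    rem M hM (fun i => (M : ℤ) * b i + cst c i) = c := by
  funext i
  apply Fin.ext
  simp only [rem, cst]
  rw [Int.mul_add_emod_self_left]
  rw [Int.emod_eq_of_lt (by positivity) (by exact_mod_cast (c i).2)]
  simp

lemma blkOf_add {M k : ℕ} (hM : 0 < M) (b : Zk k) (c : Fin k → Fin M) :
    blkOf M (fun i => (M : ℤ) * b i + cst c i) = b := by
  funext i
  simp only [blkOf, cst]
  rw [Int.mul_add_ediv_left _ _ (by exact_mod_cast hM.ne')]
  rw [Int.ediv_eq_zero_of_lt (by positivity) (by exact_mod_cast (c i).2)]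
  simp

lemma SpecIn.comb {k : ℕ} {f g : E k → ℂ} {C D : ℝ} (hf : BC f C) (hg : BC g D) {S : Set (E k)}
    (h1 : SpecIn f S) (h2 : SpecIn g S) (c : ℂ) : SpecIn (fun t => c * f t + g t) S := by
  intro u hu
  have h3 : ∀ t, (c * f t + g t) * 𝓕 u t = c * (f t * 𝓕 u t) + g t * 𝓕 u t := fun t => by ring
  simp only [h3]
  rw [integral_add ((hf.integrable _).const_mul c) (hg.integrable _), integral_const_mul,
    h1 u hu, h2 u hu]
  simp

lemma vec_add' {k : ℕ} (n m : Zk k) : (vec (n + m) : E k) = vec n + vec m := vec_add n m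

theorem t_STEP (hI : P_INTERP.{u}) (hBL : P_BLK.{u}) : P_STEP.{u} := by
  intro k A B r hk hA hB hr hAB
  have hA' : (0 : ℝ) < A := by exact_mod_cast hA
  have hB' : (0 : ℝ) < B := by exact_mod_cast hB
  obtain ⟨κ, hκ⟩ : ∃ κ : ℝ, κ = (A : ℝ) / B := ⟨_, rfl⟩
  have hκ0 : 0 < κ := by rw [hκ]; positivity
  have hκr : 1 / κ < 2 * r := by
    rw [hκ, one_div_div, div_lt_iff₀ hA']
    exact hAB
  obtain ⟨R0, C, hC0, hint⟩ := hI k 0 r κ hk hr hκ0 hκr
  refine ⟨R0, ?_⟩
  intro X _ _ _ F0 hT hpack f η ε hη hε hf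
  -- constants
  obtain ⟨τ, hτ0, hτ1, hτη⟩ : ∃ τ : ℝ, 0 < τ ∧ τ ≤ 1 ∧ 2 * τ ≤ η :=
    ⟨min 1 (η / 2), lt_min one_pos (by positivity), min_le_left _ _, by
      have := min_le_right 1 (η / 2)
      linarith⟩
  obtain ⟨η1, hη1, hη1C⟩ : ∃ η1 : ℝ, 0 < η1 ∧ C * (2 * η1) ≤ τ := by
    refine ⟨τ / (2 * (C + 1)), by positivity, ?_⟩
    have h : C * (2 * (τ / (2 * (C + 1)))) = τ * (C / (C + 1)) := by
      field_simp
    rw [h]
    have h2 : C / (C + 1) ≤ 1 := by
      rw [div_le_one (by positivity)]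
      linarith
    nlinarith
  -- f1
  obtain ⟨f1, hf1⟩ : ∃ f1 : X → C(E k, ℂ), ∀ x t, f1 x t = ((1 - τ : ℝ) : ℂ) * f x t :=
    ⟨fun x => ((1 - τ : ℝ) : ℂ) • f x, fun x t => rfl⟩
  have hf1c : Continuous f1 := by
    have : f1 = fun x => ((1 - τ : ℝ) : ℂ) • f x := by
      funext x
      ext t
      exact hf1 x t
    rw [this]
    exact (continuous_const_smul (((1 - τ : ℝ) : ℂ))).comp hf.cont
  have hf1b : ∀ x t, ‖f1 x t‖ ≤ 1 - τ := by
    intro x t
    rw [hf1, norm_mul, Complex.norm_real, Real.norm_eq_abs, abs_of_nonneg (by linarith)]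
    have := hf.bdd x t
    nlinarith
  have hf1e : ∀ (q : Zk k) (x : X) (t : E k), f1 (q +ᵥ x) t = f1 x (t + vec q) := by
    intro q x t
    rw [hf1, hf1, hf.equi]
  have hunc : Continuous fun p : X × E k => f1 p.1 p.2 :=
    ContinuousMap.continuous_uncurry_of_continuous ⟨f1, hf1c⟩
  -- uniform continuity on the unit cube
  obtain ⟨ε1, hε1, hosc⟩ : ∃ ε1 : ℝ, 0 < ε1 ∧ ∀ y y' : X, dist y y' < ε1 → ∀ t ∈ cub (fun _ : Fin k => (0 : ℝ)) 1,
      ‖f1 y t - f1 y' t‖ ≤ η1 := by
    have hK : IsCompact ((Set.univ : Set X) ×ˢ cub (fun _ : Fin k => (0 : ℝ)) 1) :=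
      isCompact_univ.prod (isCompact_cub _ _)
    have h1 := hK.uniformContinuousOn_of_continuous hunc.continuousOn
    rw [Metric.uniformContinuousOn_iff] at h1
    obtain ⟨δ, hδ, h2⟩ := h1 η1 hη1
    refine ⟨δ, hδ, fun y y' hyy t ht => ?_⟩
    have h3 := h2 (y, t) ⟨mem_univ _, ht⟩ (y', t) ⟨mem_univ _, ht⟩ (by
      rw [Prod.dist_eq]
      simp only [dist_self]
      exact max_lt hyy hδ)
    rw [dist_eq_norm] at h3
    exact h3.le
  obtain ⟨j, m, L, ε', w, hj, hε'0, hε', hwid, hm, hp⟩ := hpack (min ε ε1) (lt_min hε hε1)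
  have hε'ε : ε' ≤ ε := hε'.trans (min_le_left _ _)
  have hε'1 : ε' ≤ ε1 := hε'.trans (min_le_right _ _)
  have hj' : (0 : ℝ) < j := by exact_mod_cast hj
  obtain ⟨N, hN⟩ : ∃ N : ℕ, N = A * j := ⟨_, rfl⟩
  obtain ⟨M, hM⟩ : ∃ M : ℕ, M = B * j := ⟨_, rfl⟩
  rw [← hN, ← hM] at hp
  rw [← hN] at hwid
  rw [← hM] at hm
  have hN0 : 0 < N := by rw [hN]; positivity
  have hM0 : 0 < M := by rw [hM]; positivity
  have hN' : (0 : ℝ) < N := by exact_mod_cast hN0
  have hM' : (0 : ℝ) < M := by exact_mod_cast hM0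
  have hκM : κ * M = N := by
    rw [hκ, hM, hN]
    push_cast
    field_simp
  have hκ2 : (N : ℝ) / M = κ := by
    rw [div_eq_iff hM'.ne', hκM]
  -- the samples
  obtain ⟨g0, hg0⟩ : ∃ g0 : X → (Fin k → Fin M) → ℂ, ∀ y c, g0 y c = f1 y (κ • vec (cst c)) :=
    ⟨fun y c => f1 y (κ • vec (cst c)), fun _ _ => rfl⟩
  have hg0c : Continuous g0 := by
    refine continuous_pi fun c => ?_
    have : (fun y => g0 y c) = fun y => f1 y (κ • vec (cst c)) := funext fun y => hg0 y c
    rw [this]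
    exact hunc.comp (continuous_id.prodMk continuous_const)
  have hg0o : ∀ y y', dN k N y y' < ε' → ∀ c, ‖g0 y c - g0 y' c‖ ≤ η1 := by
    intro y y' hyy c
    rw [hg0, hg0]
    obtain ⟨q, hq⟩ : ∃ q : Zk k, ∀ i, q i = ⌊κ * ((c i : ℕ) : ℝ)⌋ := ⟨fun i => _, fun i => rfl⟩
    have hqb : ∀ i, 0 ≤ q i ∧ q i < N := by
      intro i
      rw [hq]
      constructor
      · apply Int.floor_nonneg.mpr
        positivity
      · rw [Int.floor_lt]
        push_cast
        rw [← hκM]
        have : (((c i : ℕ)) : ℝ) < M := by exact_mod_cast (c i).2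
        nlinarith
    have hw : (κ • vec (cst c) : E k) = (κ • vec (cst c) - vec q) + vec q := by abel
    have hwc : (κ • vec (cst c) - vec q : E k) ∈ cub (fun _ : Fin k => (0 : ℝ)) 1 := by
      change dist (WithLp.ofLp (κ • vec (cst c) - vec q : E k)) _ ≤ 1
      rw [dist_pi_le_iff zero_le_one]
      intro i
      have h5 : (κ • vec (cst c) - vec q : E k) i = κ * ((c i : ℕ) : ℝ) - (q i : ℝ) := by
        simp [vec, cst]
      change dist ((κ • vec (cst c) - vec q : E k) i) 0 ≤ 1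
      rw [h5, Real.dist_eq, sub_zero, hq]
      have h6 := Int.floor_le (κ * ((c i : ℕ) : ℝ))
      have h7 := Int.lt_floor_add_one (κ * ((c i : ℕ) : ℝ))
      rw [abs_le]
      constructor <;> linarith
    rw [hw, ← hf1e, ← hf1e]
    exact hosc _ _ (((le_dN N y y' q hqb).trans_lt hyy).trans_le hε'1) _ hwc
  have hcard : m + 1 ≤ Fintype.card (Fin k → Fin M) := by
    simpa using hm
  obtain ⟨G, hGc, hGb, hGd⟩ := hBL k X N m ε' η1 (Fin k → Fin M) g0 hk hN0 hT hwid hcard hε'0 hη1
    hg0c hg0o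
  -- coefficients
  obtain ⟨yy, hyy⟩ : ∃ yy : X → Zk k → Zk k → X, ∀ x n z,
      yy x n z = (fun i => n i + (N : ℤ) * blkOf M z i) +ᵥ x := ⟨_, fun _ _ _ => rfl⟩
  obtain ⟨uu, huu⟩ : ∃ uu : X → Zk k → Zk k → ℂ, ∀ x n z, uu x n z =
      G (yy x n z) (rem M hM0 z) - g0 (yy x n z) (rem M hM0 z) := ⟨_, fun _ _ _ => rfl⟩
  have hyyc : ∀ n z, Continuous fun x => yy x n z := by
    intro n z
    have : (fun x => yy x n z) = fun x => (fun i => n i + (N : ℤ) * blkOf M z i) +ᵥ x :=
      funext fun x => hyy x n z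
    rw [this]
    exact hT _
  have hcoef : Coef (2 * η1) uu := by
    refine ⟨fun n z => ?_, fun x n z => ?_, fun q x n z => ?_⟩
    · have : (fun x => uu x n z) = fun x =>
          G (yy x n z) (rem M hM0 z) - g0 (yy x n z) (rem M hM0 z) := funext fun x => huu x n z
      rw [this]
      exact ((continuous_apply _).comp (hGc.comp (hyyc n z))).sub
        ((continuous_apply _).comp (hg0c.comp (hyyc n z)))
    · rw [huu]
      exact hGb _ _
    · have : yy (q +ᵥ x) n z = yy x (n + q) z := by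
        rw [hyy, hyy, vadd_vadd]
        congr 1
        funext i
        simp only [Pi.add_apply]
        ring
      rw [huu, huu, this]
  have hwts : Wts κ R0 L fun x n z => w x n (blkOf M z) := by
    have := hp.wts
    rwa [hκ2] at this
  obtain ⟨F, hF, hFv⟩ := hint X R0 L (2 * η1) (fun x n z => w x n (blkOf M z)) uu le_rfl
    (by positivity) hwts hcoef
  have hFb : ∀ x t, ‖F x t‖ ≤ τ := fun x t => (hF.bdd x t).trans hη1C
  obtain ⟨g, hg⟩ : ∃ g : X → C(E k, ℂ), ∀ x, g x = f1 x + F x := ⟨_, fun _ => rfl⟩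
  refine ⟨g, ⟨?_, ?_, ?_, ?_⟩, ?_, ?_⟩
  · have : g = fun x => f1 x + F x := funext hg
    rw [this]
    exact hf1c.add hF.cont
  · intro x t
    rw [hg]
    change ‖f1 x t + F x t‖ ≤ 1
    refine (norm_add_le _ _).trans ?_
    linarith [hf1b x t, hFb x t]
  · intro x
    have h1 : (fun t => g x t) = fun t => ((1 - τ : ℝ) : ℂ) * f x t + F x t := by
      funext t
      rw [hg]
      change f1 x t + F x t = _
      rw [hf1]
    change SpecIn (fun t => g x t) _
    rw [h1]
    exact SpecIn.comb (C := 1) (D := C * (2 * η1)) ⟨(f x).continuous, hf.bdd x⟩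
      ⟨(F x).continuous, hF.bdd x⟩ (hf.spec x) (hF.spec x) _
  · intro q x t
    rw [hg, hg]
    change f1 (q +ᵥ x) t + F (q +ᵥ x) t = f1 x (t + vec q) + F x (t + vec q)
    rw [hf1e, hF.equi]
  · intro x t
    rw [hg]
    change ‖f1 x t + F x t - f x t‖ ≤ η
    have h1 : f1 x t + F x t - f x t = F x t - ((τ : ℝ) : ℂ) * f x t := by
      rw [hf1]
      push_cast
      ring
    rw [h1]
    refine (norm_sub_le _ _).trans ?_
    rw [norm_mul, Complex.norm_real, Real.norm_eq_abs, abs_of_pos hτ0]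
    have h2 := hf.bdd x t
    have h3 := hFb x t
    nlinarith
  · intro x y h0 hgg
    by_cases hbad : ∀ n b, inBlk N n b 0 → w x n b < 1
    · exact (hp.bad x y h0 hbad).trans_le hε'ε
    · push Not at hbad
      obtain ⟨n, b, hin, h1⟩ := hbad
      have hwxy : w x = w y := hp.det x y h0
      obtain ⟨zc, hzc⟩ : ∃ zc : (Fin k → Fin M) → Zk k, ∀ c i, zc c i = (M : ℤ) * b i + cst c i :=
        ⟨_, fun _ _ => rfl⟩
      have hblk : ∀ c, blkOf M (zc c) = b := by
        intro c
        have : zc c = fun i => (M : ℤ) * b i + cst c i := funext (hzc c)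
        rw [this, blkOf_add hM0]
      have hrem : ∀ c, rem M hM0 (zc c) = c := by
        intro c
        have : zc c = fun i => (M : ℤ) * b i + cst c i := funext (hzc c)
        rw [this, rem_add hM0]
      have hw1 : w x n b = 1 := by
        refine le_antisymm ?_ h1
        have h2 := hwts.le_one x n (zc fun _ => ⟨0, hM0⟩)
        simp only [hblk] at h2
        exact h2
      have hval : ∀ (x' : X), w x' n b = 1 → ∀ c : Fin k → Fin M,
          g x' (pos κ n (zc c)) = G ((fun i => n i + (N : ℤ) * b i) +ᵥ x') c := by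
        intro x' hx' c
        have h2 := hFv x' n (zc c) (by simp only [hblk]; exact hx')
        rw [hg]
        change f1 x' (pos κ n (zc c)) + F x' (pos κ n (zc c)) = _
        rw [h2, huu, hyy, hblk, hrem, hg0]
        have h3 : pos κ n (zc c) = κ • vec (cst c) + vec (fun i => n i + (N : ℤ) * b i) := by
          ext i
          simp only [pos, vec, PiLp.add_apply, PiLp.smul_apply, smul_eq_mul, hzc, cst]
          push_cast
          rw [← hκM]
          ring
        rw [h3, ← hf1e]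
        ring
      have hG : G ((fun i => n i + (N : ℤ) * b i) +ᵥ x) = G ((fun i => n i + (N : ℤ) * b i) +ᵥ y) := by
        funext c
        rw [← hval x hw1 c, ← hval y (by rw [← hwxy]; exact hw1) c, hgg]
      have h4 := hGd _ _ hG
      have h5 := le_dN N ((fun i => n i + (N : ℤ) * b i) +ᵥ x) ((fun i => n i + (N : ℤ) * b i) +ᵥ y)
        (fun i => -(n i + (N : ℤ) * b i)) (fun i => by
          have := hin i
          simp only [Pi.zero_apply] at this
          constructor <;> linarith [this.1, this.2])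
      have h6 : ∀ x' : X, (fun i => -(n i + (N : ℤ) * b i)) +ᵥ
          ((fun i => n i + (N : ℤ) * b i) +ᵥ x') = x' := by
        intro x'
        rw [vadd_vadd]
        have : ((fun i => -(n i + (N : ℤ) * b i)) + fun i => n i + (N : ℤ) * b i : Zk k) = 0 := by
          funext i
          simp
        rw [this, zero_vadd]
      rw [h6, h6] at h5
      exact (h5.trans_lt h4).trans_le hε'ε

end Pool.Agent.Run7.h987.RT
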